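import Pool.Agent.H8.PS.Main

/-!
MP_325208 (helper25): few lines through a point off an arc conic meet it in a point that is not the contact point of a tangent.
`g` is homogeneous of degree two with polar form `β`; the arc condition is that of `H84.PS.Arc`.
-/

set_option autoImplicit false
set_option linter.unusedSectionVars false

open Module Finset
open scoped Classical

namespace Pool.Agent.H25.PS

variable {F : Type*} [Field F] [Fintype F] {V : Type*} [AddCommGroup V] [Module F V] [Fintype V] [FiniteDimensional F V]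

/-- the condition of `H84.PS.Arc` for a form that is homogeneous of degree two: no three zeros are collinear -/
theorem arc3 {g : V → F} (hs : ∀ (c : F) (v : V), g (c • v) = c ^ 2 * g v)
    (hA : ∀ u v : V, u ≠ 0 → v ∉ Submodule.span F {u} → g u = 0 → g v = 0 → g (u + v) ≠ 0) {a b c : V} (ha : a ≠ 0)
    (ha0 : g a = 0) (hb0 : g b = 0) (hc0 : g c = 0) (hc : c ∈ Submodule.span F {a, b}) :
    b ∈ Submodule.span F {a} ∨ c ∈ Submodule.span F {a} ∨ c ∈ Submodule.span F {b} := by
  obtain ⟨x, y, rfl⟩ := Submodule.mem_span_pair.1 hc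
  by_cases hb : b ∈ Submodule.span F {a}
  · exact Or.inl hb
  by_cases hx : x = 0
  · refine Or.inr (Or.inr ?_)
    rw [hx, zero_smul, zero_add]
    exact Submodule.smul_mem _ _ (Submodule.mem_span_singleton_self b)
  by_cases hy : y = 0
  · refine Or.inr (Or.inl ?_)
    rw [hy, zero_smul, add_zero]
    exact Submodule.smul_mem _ _ (Submodule.mem_span_singleton_self a)
  exfalso
  refine hA (x • a) (y • b) (smul_ne_zero hx ha) ?_ (by rw [hs, ha0, mul_zero]) (by rw [hs, hb0, mul_zero]) hc0
  intro h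
  apply hb
  obtain ⟨z, hz⟩ := Submodule.mem_span_singleton.1 h
  rw [Submodule.mem_span_singleton]
  exact ⟨y⁻¹ * (z * x), by rw [mul_smul, mul_smul, hz, smul_smul, inv_mul_cancel₀ hy, one_smul]⟩

/-- an arc has at most `q + 2` points -/
theorem card_le_of_arc {g : V → F} (hV : finrank F V = 3) (hs : ∀ (c : F) (v : V), g (c • v) = c ^ 2 * g v)
    (hA : ∀ u v : V, u ≠ 0 → v ∉ Submodule.span F {u} → g u = 0 → g v = 0 → g (u + v) ≠ 0) {T : Finset V}
    (hT : ∀ v ∈ T, v ≠ 0 ∧ g v = 0) : T.card ≤ (Fintype.card F - 1) * (Fintype.card F + 2) := by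
  have hq : 1 < Fintype.card F := Fintype.one_lt_card
  rcases T.eq_empty_or_nonempty with rfl | ⟨v₀, hv₀⟩
  · simp
  have hv0 := hT v₀ hv₀
  set T₀ := T.filter (· ∈ Submodule.span F {v₀}) with hT₀
  set T₁ := T.filter (· ∉ Submodule.span F {v₀}) with hT₁
  have h0 : T₀.card ≤ Fintype.card F - 1 :=
    H8.PS.card_le_of_span (fun v hv => (hT v (Finset.mem_filter.1 hv).1).1) hv0.1 fun x hx => (Finset.mem_filter.1 hx).2
  have hsum : T₀.card + T₁.card = T.card := Finset.card_filter_add_card_filter_not _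
  let U : Submodule F V := Submodule.span F {v₀}
  have hU : finrank F U = 1 := finrank_span_singleton hv0.1
  have hquot : finrank F (V ⧸ U) = 2 := by
    have := Submodule.finrank_quotient_add_finrank U
    omega
  have : Fintype (V ⧸ U) := Fintype.ofFinite _
  have hcq : Fintype.card (V ⧸ U) = Fintype.card F ^ 2 := by
    rw [Module.card_eq_pow_finrank (K := F) (V := V ⧸ U), hquot]
  have h1 : T₁.card ≤ (Finset.univ.erase (0 : V ⧸ U)).card := by
    refine Finset.card_le_card_of_injOn (fun v => Submodule.Quotient.mk v) ?_ ?_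
    · intro v hv
      have hv' := Finset.mem_filter.1 hv
      rw [Finset.mem_coe, Finset.mem_erase]
      refine ⟨?_, Finset.mem_univ _⟩
      intro h
      rw [Submodule.Quotient.mk_eq_zero] at h
      exact hv'.2 h
    · intro v hv w hw hvw
      have hv' := Finset.mem_filter.1 hv
      have hw' := Finset.mem_filter.1 hw
      have hvT := hT v hv'.1
      have hwT := hT w hw'.1
      have hvw' : (Submodule.Quotient.mk v : V ⧸ U) = Submodule.Quotient.mk w := hvw
      rw [Submodule.Quotient.eq] at hvw'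
      obtain ⟨c, hc⟩ := Submodule.mem_span_singleton.1 hvw'
      have h5 : w ∈ Submodule.span F {v₀, v} := by
        rw [Submodule.mem_span_pair]
        exact ⟨-c, 1, by rw [neg_smul, hc, one_smul]; abel⟩
      rcases arc3 hs hA hv0.1 hv0.2 hvT.2 hwT.2 h5 with h6 | h6 | h6
      · exact absurd h6 hv'.2
      · exact absurd h6 hw'.2
      · obtain ⟨a, ha⟩ := Submodule.mem_span_singleton.1 h6
        rw [← ha] at hc
        have h7 : (1 - a) • v = c • v₀ := by rw [hc, sub_smul, one_smul]
        by_cases h8 : 1 - a = 0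
        · have h9 : a = 1 := by linear_combination -h8
          rw [← ha, h9, one_smul]
        · exfalso
          apply hv'.2
          rw [Submodule.mem_span_singleton]
          exact ⟨(1 - a)⁻¹ * c, by rw [mul_smul, ← h7, smul_smul, inv_mul_cancel₀ h8, one_smul]⟩
  rw [Finset.card_erase_of_mem (Finset.mem_univ _), Finset.card_univ, hcq] at h1
  obtain ⟨n, hn⟩ : ∃ n, Fintype.card F = n + 1 := ⟨Fintype.card F - 1, by omega⟩
  rw [hn] at h0 h1 ⊢
  have e1 : (n + 1) ^ 2 - 1 = n * (n + 2) := by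
    have : (n + 1) ^ 2 = n * (n + 2) + 1 := by ring
    omega
  rw [e1] at h1
  have e2 : n + 1 - 1 = n := by omega
  rw [e2] at h0 ⊢
  calc T.card = T₀.card + T₁.card := hsum.symm
    _ ≤ n + n * (n + 2) := add_le_add h0 h1
    _ = n * (n + 1 + 2) := by ring

/-- an arc has at most two points on a line -/
theorem card_le_of_arc_line {g : V → F} {N : Submodule F V} (hN : finrank F N = 2)
    (hs : ∀ (c : F) (v : V), g (c • v) = c ^ 2 * g v)
    (hA : ∀ u v : V, u ≠ 0 → v ∉ Submodule.span F {u} → g u = 0 → g v = 0 → g (u + v) ≠ 0) {T : Finset V}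
    (hT : ∀ v ∈ T, v ∈ N ∧ v ≠ 0 ∧ g v = 0) : T.card ≤ 2 * (Fintype.card F - 1) := by
  have hq : 1 < Fintype.card F := Fintype.one_lt_card
  rcases T.eq_empty_or_nonempty with rfl | ⟨v, hv⟩
  · simp
  by_cases h1 : ∀ x ∈ T, x ∈ Submodule.span F {v}
  · have := H8.PS.card_le_of_span (fun v hv => (hT v hv).2.1) (hT v hv).2.1 h1
    omega
  push Not at h1
  obtain ⟨u, hu, huv⟩ := h1
  have h2 : Submodule.span F {v, u} = N := by
    refine Submodule.eq_of_le_of_finrank_eq ?_ ?_
    · rw [Submodule.span_le]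
      intro x hx
      rcases hx with rfl | hx
      · exact (hT _ hv).1
      · rw [Set.mem_singleton_iff.1 hx]
        exact (hT _ hu).1
    · rw [H8.PS.finrank_span_pair (hT v hv).2.1 huv, hN]
  have h3 : T ⊆ H8.PS.ray F v ∪ H8.PS.ray F u := by
    intro w hw
    have hwT := hT w hw
    have h4 : w ∈ Submodule.span F {v, u} := by rw [h2]; exact hwT.1
    rw [Finset.mem_union, H8.PS.mem_ray, H8.PS.mem_ray]
    rcases arc3 hs hA (hT v hv).2.1 (hT v hv).2.2 (hT u hu).2.2 hwT.2.2 h4 with h5 | h5 | h5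
    · exact absurd h5 huv
    · obtain ⟨c, hc⟩ := Submodule.mem_span_singleton.1 h5
      refine Or.inl ⟨c, ?_, hc⟩
      rintro rfl
      exact hwT.2.1 (by rw [← hc, zero_smul])
    · obtain ⟨c, hc⟩ := Submodule.mem_span_singleton.1 h5
      refine Or.inr ⟨c, ?_, hc⟩
      rintro rfl
      exact hwT.2.1 (by rw [← hc, zero_smul])
  have h4 := (Finset.card_le_card h3).trans (Finset.card_union_le _ _)
  rw [H8.PS.card_ray (hT v hv).2.1, H8.PS.card_ray (hT u hu).2.1] at h4
  omega

/-- **(5)** `R` = contact points of the tangents of `B` through `Z`, on an arc conic not through `Z`, `Z` not the nucleus -/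
theorem card_tangent_le {g : V → F} {β : V →ₗ[F] V →ₗ[F] F} (hV : finrank F V = 3)
    (hs : ∀ (c : F) (v : V), g (c • v) = c ^ 2 * g v) (hB : ∀ x y : V, g (x + y) = g x + g y + β x y)
    (hA : ∀ u v : V, u ≠ 0 → v ∉ Submodule.span F {u} → g u = 0 → g v = 0 → g (u + v) ≠ 0)
    {B R : Finset V} (hRB : R ⊆ B) (hR0 : ∀ v ∈ R, v ≠ 0) {Z : V}
    (htan : ∀ v ∈ R, ∀ v' ∈ B, v' ∈ Submodule.span F {Z, v} → v' ∈ Submodule.span F {v})
    (hZR : ∀ v ∈ R, Z ∉ Submodule.span F {v})
    (hQR : ∀ v ∈ R, g v = 0) (hQZ : g Z ≠ 0) (hnuc : β Z ≠ 0) :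
    2 * R.card ≤ (Fintype.card F - 1) * (Fintype.card F + 4) := by
  have hq : 1 < Fintype.card F := Fintype.one_lt_card
  have hsymm : ∀ x y, β x y = β y x := by
    intro x y
    have h1 := hB x y
    have h2 := hB y x
    rw [add_comm y x] at h2
    linear_combination h2 - h1
  have hself : β Z Z = 2 * g Z := by
    have h1 := hB Z Z
    have h2 : Z + Z = (2 : F) • Z := by rw [two_smul]
    rw [h2, hs] at h1
    linear_combination -h1
  set R₀ := R.filter (fun v => β Z v = 0) with hR₀
  set R₁ := R.filter (fun v => ¬ β Z v = 0) with hR₁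
  have hsum : R₀.card + R₁.card = R.card := Finset.card_filter_add_card_filter_not _
  -- few contact points on the polar line
  have hN : finrank F (LinearMap.ker (β Z)) = 2 := by
    have h3 := Module.Dual.finrank_ker_add_one_of_ne_zero (K := F) (f := β Z) hnuc
    omega
  have h0 : R₀.card ≤ 2 * (Fintype.card F - 1) := by
    refine card_le_of_arc_line hN hs hA fun v hv => ?_
    have hv' := Finset.mem_filter.1 hv
    exact ⟨LinearMap.mem_ker.2 hv'.2, hR0 v hv'.1, hQR v hv'.1⟩
  -- the reflection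
  let σ : V → V := fun v => v + (-(β Z v * (g Z)⁻¹)) • Z
  have hσdef : ∀ v, σ v = v + (-(β Z v * (g Z)⁻¹)) • Z := fun v => rfl
  have hσp : ∀ v, β Z (σ v) = - β Z v := by
    intro v
    rw [hσdef, map_add, map_smul, smul_eq_mul, hself]
    field_simp
    ring
  have hσσ : ∀ v, σ (σ v) = v := by
    intro v
    rw [hσdef (σ v), hσp, hσdef v, add_assoc, ← add_smul]
    have : -(β Z v * (g Z)⁻¹) + -(-β Z v * (g Z)⁻¹) = 0 := by ring
    rw [this, zero_smul, add_zero]
  have hσQ : ∀ v, g (σ v) = g v := by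
    intro v
    rw [hσdef, hB, hs, map_smul, hsymm v Z, smul_eq_mul]
    field_simp
    ring
  have hinj : Set.InjOn σ (R₁ : Set V) := fun v _ w _ h => by rw [← hσσ v, ← hσσ w, h]
  have hcard : (R₁.image σ).card = R₁.card := Finset.card_image_of_injOn hinj
  have hdis : Disjoint R (R₁.image σ) := by
    rw [Finset.disjoint_left]
    intro y hy hy2
    obtain ⟨v, hv, rfl⟩ := Finset.mem_image.1 hy2
    have hv' := Finset.mem_filter.1 hv
    have h1 : σ v ∈ Submodule.span F {Z, v} := by
      rw [Submodule.mem_span_pair]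
      exact ⟨-(β Z v * (g Z)⁻¹), 1, by rw [hσdef, one_smul, add_comm]⟩
    have h2 := htan v hv'.1 (σ v) (hRB hy) h1
    obtain ⟨c, hc⟩ := Submodule.mem_span_singleton.1 h2
    apply hZR v hv'.1
    rw [Submodule.mem_span_singleton]
    have h3 : (-(β Z v * (g Z)⁻¹)) • Z = (c - 1) • v := by
      rw [sub_smul, one_smul, hc, hσdef, add_sub_cancel_left]
    have h4 : -(β Z v * (g Z)⁻¹) ≠ 0 := neg_ne_zero.2 (mul_ne_zero hv'.2 (inv_ne_zero hQZ))
    exact ⟨(-(β Z v * (g Z)⁻¹))⁻¹ * (c - 1), by
      rw [mul_smul, ← h3, smul_smul, inv_mul_cancel₀ h4, one_smul]⟩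
  have h1 : (R ∪ R₁.image σ).card ≤ (Fintype.card F - 1) * (Fintype.card F + 2) := by
    refine card_le_of_arc hV hs hA fun v hv => ?_
    rcases Finset.mem_union.1 hv with h2 | h2
    · exact ⟨hR0 v h2, hQR v h2⟩
    · obtain ⟨w, hw, rfl⟩ := Finset.mem_image.1 h2
      have hw' := Finset.mem_filter.1 hw
      refine ⟨?_, by rw [hσQ]; exact hQR w hw'.1⟩
      intro h3
      have h4 := hσp w
      rw [h3, map_zero] at h4
      exact hw'.2 (neg_eq_zero.1 h4.symm)
  rw [Finset.card_union_of_disjoint hdis, hcard] at h1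
  obtain ⟨n, hn⟩ : ∃ n, Fintype.card F = n + 1 := ⟨Fintype.card F - 1, by omega⟩
  rw [hn] at h0 h1 ⊢
  have e2 : n + 1 - 1 = n := by omega
  rw [e2] at h0 h1 ⊢
  have e3 : n * (n + 1 + 4) = n * (n + 1 + 2) + 2 * n := by ring
  rw [e3]
  omega

end Pool.Agent.H25.PS
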