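import Pool.Agent.H8.PS.PlaneData

/-!
MP_325208 (helper25): four lines (rows card_four, exists_four of Pool/Agent/H97/PS/Long.lean).
-/

set_option autoImplicit false

open Configuration Finset H8.PS
open scoped Classical

namespace Pool.Agent.H25.PS

variable {P L : Type*} [Fintype P] [Fintype L] [Membership P L] [ProjectivePlane P L]

theorem card_inter_le {A : Finset P} {l l' : L} (h : l ≠ l') :
    (A.filter (· ∈ l) ∩ A.filter (· ∈ l')).card ≤ 1 := by
  rw [Finset.card_le_one]
  intro a ha b hb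
  simp only [Finset.mem_inter, Finset.mem_filter] at ha hb
  by_contra hab
  rcases Nondegenerate.eq_or_eq ha.1.2 hb.1.2 ha.2.2 hb.2.2 with h1 | h1
  · exact hab h1
  · exact h h1

/-- four lines with at least `k` points each have at least `4 k - 6` points together -/
theorem card_four {A : Finset P} {k : ℕ} {l₁ l₂ l₃ l₄ : L} (h12 : l₁ ≠ l₂) (h13 : l₁ ≠ l₃) (h14 : l₁ ≠ l₄)
    (h23 : l₂ ≠ l₃) (h24 : l₂ ≠ l₄) (h34 : l₃ ≠ l₄) (h1 : k ≤ (A.filter (· ∈ l₁)).card)
    (h2 : k ≤ (A.filter (· ∈ l₂)).card) (h3 : k ≤ (A.filter (· ∈ l₃)).card) (h4 : k ≤ (A.filter (· ∈ l₄)).card) :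
    4 * k ≤ A.card + 6 := by
  have i12 := card_inter_le (A := A) h12
  have i13 := card_inter_le (A := A) h13
  have i14 := card_inter_le (A := A) h14
  have i23 := card_inter_le (A := A) h23
  have i24 := card_inter_le (A := A) h24
  have i34 := card_inter_le (A := A) h34
  set s₁ := A.filter (· ∈ l₁) with hs1
  set s₂ := A.filter (· ∈ l₂) with hs2
  set s₃ := A.filter (· ∈ l₃) with hs3
  set s₄ := A.filter (· ∈ l₄) with hs4
  have u1 := Finset.card_union_add_card_inter s₁ s₂
  have u2 := Finset.card_union_add_card_inter (s₁ ∪ s₂) s₃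
  have u3 := Finset.card_union_add_card_inter (s₁ ∪ s₂ ∪ s₃) s₄
  have v2 : ((s₁ ∪ s₂) ∩ s₃).card ≤ (s₁ ∩ s₃).card + (s₂ ∩ s₃).card := by
    rw [Finset.union_inter_distrib_right]
    exact Finset.card_union_le _ _
  have v3 : ((s₁ ∪ s₂ ∪ s₃) ∩ s₄).card ≤ (s₁ ∩ s₄).card + (s₂ ∩ s₄).card + (s₃ ∩ s₄).card := by
    rw [Finset.union_inter_distrib_right, Finset.union_inter_distrib_right]
    exact (Finset.card_union_le _ _).trans (Nat.add_le_add_right (Finset.card_union_le _ _) _)
  have w : (s₁ ∪ s₂ ∪ s₃ ∪ s₄).card ≤ A.card := by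
    refine Finset.card_le_card ?_
    intro x hx
    simp only [Finset.mem_union, hs1, hs2, hs3, hs4, Finset.mem_filter] at hx
    tauto
  omega

/-- if at least four points of `S` are each on two different lines of `G`, then `G` has at least four lines -/
theorem exists_four {S : Finset P} (hS : 4 ≤ S.card) {G : L → Prop}
    (h : ∀ a ∈ S, ∃ l l' : L, G l ∧ G l' ∧ l ≠ l' ∧ a ∈ l ∧ a ∈ l') :
    ∃ l₁ l₂ l₃ l₄ : L, G l₁ ∧ G l₂ ∧ G l₃ ∧ G l₄ ∧ l₁ ≠ l₂ ∧ l₁ ≠ l₃ ∧ l₁ ≠ l₄ ∧ l₂ ≠ l₃ ∧ l₂ ≠ l₄ ∧ l₃ ≠ l₄ := by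
  have hcard : 4 ≤ (Finset.univ.filter fun l : L => G l).card := by
    by_contra hlt
    push Not at hlt
    obtain ⟨a₀, -⟩ := Finset.card_pos.1 (by omega : 0 < S.card)
    obtain ⟨e, he⟩ := Finset.card_pos.1 (by omega : 0 < S.card)
    have hLne : Nonempty L := by
      obtain ⟨l, -⟩ := h e he
      exact ⟨l⟩
    choose! f g hf hg hfg haf hag using h
    have h1 : S.card ≤ ((Finset.univ.filter fun l : L => G l).powersetCard 2).card := by
      refine Finset.card_le_card_of_injOn (fun a => {f a, g a}) ?_ ?_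
      · intro a ha
        rw [Finset.mem_coe, Finset.mem_powersetCard]
        refine ⟨?_, Finset.card_pair (hfg a ha)⟩
        intro x hx
        rw [Finset.mem_insert, Finset.mem_singleton] at hx
        rcases hx with rfl | rfl
        · exact Finset.mem_filter.2 ⟨Finset.mem_univ _, hf a ha⟩
        · exact Finset.mem_filter.2 ⟨Finset.mem_univ _, hg a ha⟩
      · intro a ha b hb hab
        have hab' : ({f a, g a} : Finset L) = {f b, g b} := hab
        have m1 : a ∈ f b ∧ a ∈ g b := by
          have e1 : f b ∈ ({f a, g a} : Finset L) := by rw [hab']; simp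
          have e2 : g b ∈ ({f a, g a} : Finset L) := by rw [hab']; simp
          rw [Finset.mem_insert, Finset.mem_singleton] at e1 e2
          constructor
          · rcases e1 with e1 | e1
            · rw [e1]; exact haf a ha
            · rw [e1]; exact hag a ha
          · rcases e2 with e2 | e2
            · rw [e2]; exact haf a ha
            · rw [e2]; exact hag a ha
        by_contra hne
        rcases Nondegenerate.eq_or_eq m1.1 (haf b hb) m1.2 (hag b hb) with h5 | h5
        · exact hne h5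
        · exact hfg b hb h5
    rw [Finset.card_powersetCard] at h1
    have h2 : ((Finset.univ.filter fun l : L => G l).card).choose 2 ≤ Nat.choose 3 2 :=
      Nat.choose_le_choose 2 (by omega)
    have h3 : Nat.choose 3 2 = 3 := by decide
    omega
  obtain ⟨t, ht, htc⟩ := Finset.exists_subset_card_eq hcard
  have hemb := t.equivFinOfCardEq htc
  have hG : ∀ i : Fin 4, G (hemb.symm i : L) := fun i =>
    (Finset.mem_filter.1 (ht (hemb.symm i).2)).2
  have hinj : ∀ i j : Fin 4, i ≠ j → (hemb.symm i : L) ≠ (hemb.symm j : L) := fun i j hij h5 =>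
    hij (hemb.symm.injective (Subtype.ext h5))
  exact ⟨hemb.symm 0, hemb.symm 1, hemb.symm 2, hemb.symm 3, hG 0, hG 1, hG 2, hG 3,
    hinj 0 1 (by decide), hinj 0 2 (by decide), hinj 0 3 (by decide), hinj 1 2 (by decide),
    hinj 1 3 (by decide), hinj 2 3 (by decide)⟩

end Pool.Agent.H25.PS
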