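import Pool.Agent.H27.PS.Cnt27

/-!
MP_325208 (helper25): T_off_le, long_of_pair (rows of Pool/Agent/H97/PS/Long.lean).
-/

set_option autoImplicit false
set_option linter.unusedSectionVars false

open Configuration Finset H8.PS
open scoped Classical

namespace Pool.Agent.H25.PS

variable {P L : Type*} [Fintype P] [Fintype L] [Membership P L] [ProjectivePlane P L]

theorem mem_T' {B : Finset P} {Z X : P} :
    X ∈ T L B Z ↔ X ∈ B ∧ ∀ l : L, Z ∈ l → X ∈ l → ∀ Y ∈ B, Y ∈ l → Y = X := by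
  simp [T]

theorem exists_line {p p' : P} (h : p ≠ p') : ∃ l : L, p ∈ l ∧ p' ∈ l :=
  ⟨HasLines.mkLine h, (HasLines.mkLine_ax h).1, (HasLines.mkLine_ax h).2⟩

theorem exists_point {l l' : L} (h : l ≠ l') : ∃ p : P, p ∈ l ∧ p ∈ l' :=
  ⟨HasPoints.mkPoint h, (HasPoints.mkPoint_ax h).1, (HasPoints.mkPoint_ax h).2⟩

/-- step (a): for `Z` outside `B` and `t`, the number of tangents through `Z` whose contact point is not on `t` is at most
the number of points of `t` outside `B` -/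
theorem T_off_le {B : Finset P} {q d : ℕ} (h : PlaneData P L q d B) {t : L} {Z : P} (hZt : Z ∉ t)
    (hZ : Z ∉ B) : ((T L B Z).filter (· ∉ t)).card + (on B t).card ≤ q + 1 := by
  have hex : ∀ X ∈ (T L B Z).filter (· ∉ t), ∃ Y : P, Y ∈ t ∧ Y ∉ B ∧ ∃ l : L, Z ∈ l ∧ X ∈ l ∧ Y ∈ l := by
    intro X hX
    obtain ⟨hXT, hXt⟩ := Finset.mem_filter.1 hX
    obtain ⟨hXB, htan⟩ := mem_T'.1 hXT
    have hZX : Z ≠ X := by
      rintro rfl
      exact hZ hXB
    obtain ⟨l, hl1, hl2⟩ := exists_line (L := L) hZX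
    have hlt : l ≠ t := by
      rintro rfl
      exact hZt hl1
    obtain ⟨Y, hY1, hY2⟩ := exists_point (P := P) hlt
    refine ⟨Y, hY2, ?_, l, hl1, hl2, hY1⟩
    intro hYB
    have := htan l hl1 hl2 Y hYB hY1
    rw [this] at hY2
    exact hXt hY2
  have hne : Nonempty P := ⟨Z⟩
  choose! f hf1 hf2 hf3 using hex
  have h1 : ((T L B Z).filter (· ∉ t)).card ≤ ((Finset.univ.filter fun p : P => p ∈ t) \ on B t).card := by
    refine Finset.card_le_card_of_injOn f ?_ ?_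
    · intro X hX
      rw [Finset.mem_coe, Finset.mem_sdiff, Finset.mem_filter]
      refine ⟨⟨Finset.mem_univ _, hf1 X hX⟩, ?_⟩
      intro h2
      exact hf2 X hX (Finset.mem_filter.1 h2).1
    · intro X hX X' hX' hXX'
      obtain ⟨l, hl1, hl2, hl3⟩ := hf3 X hX
      obtain ⟨l', hl1', hl2', hl3'⟩ := hf3 X' hX'
      have hfX : f X = f X' := hXX'
      rw [← hfX] at hl3'
      have hZf : Z ≠ f X := by
        intro h2
        exact hZt (h2 ▸ hf1 X hX)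
      have hll : l = l' := (Nondegenerate.eq_or_eq hl1 hl3 hl1' hl3').resolve_left hZf
      subst hll
      have h3 := mem_T'.1 (Finset.mem_filter.1 hX).1
      have h4 := mem_T'.1 (Finset.mem_filter.1 hX').1
      exact (h3.2 l hl1 hl2 X' h4.1 hl2').symm
  have h2 : on B t ⊆ Finset.univ.filter fun p : P => p ∈ t := by
    intro x hx
    exact Finset.mem_filter.2 ⟨Finset.mem_univ _, (Finset.mem_filter.1 hx).2⟩
  rw [Finset.card_sdiff_of_subset h2, Pool.Agent.H27.PS.Cnt.card_on, h.order] at h1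
  have h3 := Finset.card_le_card h2
  rw [Pool.Agent.H27.PS.Cnt.card_on, h.order] at h3
  omega

/-- step (c), first part: the line through two contact points is long -/
theorem long_of_pair {B : Finset P} {q d m : ℕ} (h : PlaneData P L q d B) (hdm : d + m = q) {t : L}
    (ht : q + 2 ≤ (on B t).card + 2 * m) (ht2 : 2 ≤ (on B t).card) {P₁ P₂ a₁ a₂ : P} (h1 : P₁ ∈ t) (h2 : P₂ ∈ t)
    (h1B : P₁ ∉ B) (h2B : P₂ ∉ B) (h12 : P₁ ≠ P₂) (ha1 : a₁ ∈ T L B P₁) (ha2 : a₂ ∈ T L B P₂) (ha : a₁ ≠ a₂) :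
    ∃ l : L, a₁ ∈ l ∧ a₂ ∈ l ∧ m + 1 ≤ ((B.filter (· ∉ t)).filter (· ∈ l)).card := by
  obtain ⟨ha1B, ht1⟩ := mem_T'.1 ha1
  obtain ⟨ha2B, ht2'⟩ := mem_T'.1 ha2
  have hoff : ∀ (p a : P), p ∈ t → (∀ l : L, p ∈ l → a ∈ l → ∀ Y ∈ B, Y ∈ l → Y = a) → a ∉ t := by
    intro p a hp hta hat
    have h3 : (on B t).card ≤ 1 := by
      rw [Finset.card_le_one]
      intro x hx y hy
      have hx' := Finset.mem_filter.1 hx
      have hy' := Finset.mem_filter.1 hy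
      rw [hta t hp hat x hx'.1 hx'.2, hta t hp hat y hy'.1 hy'.2]
    omega
  have ha1t : a₁ ∉ t := hoff P₁ a₁ h1 ht1
  have ha2t : a₂ ∉ t := hoff P₂ a₂ h2 ht2'
  have hP1a1 : P₁ ≠ a₁ := by
    rintro rfl
    exact ha1t h1
  have hP2a2 : P₂ ≠ a₂ := by
    rintro rfl
    exact ha2t h2
  obtain ⟨l₁, hl1P, hl1a⟩ := exists_line (L := L) hP1a1
  obtain ⟨l₂, hl2P, hl2a⟩ := exists_line (L := L) hP2a2
  have hl12 : l₁ ≠ l₂ := by
    rintro rfl
    have h3 : l₁ = t := (Nondegenerate.eq_or_eq hl1P hl2P h1 h2).resolve_left h12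
    exact ha1t (h3 ▸ hl1a)
  obtain ⟨Z, hZ1, hZ2⟩ := exists_point (P := P) hl12
  have hZt : Z ∉ t := by
    intro hZt
    have e1 : Z = P₁ := (Nondegenerate.eq_or_eq hZ1 hl1P hZt h1).resolve_right fun h3 => ha1t (h3 ▸ hl1a)
    have e2 : Z = P₂ := (Nondegenerate.eq_or_eq hZ2 hl2P hZt h2).resolve_right fun h3 => ha2t (h3 ▸ hl2a)
    exact h12 (e1.symm.trans e2)
  have hZB : Z ∉ B := by
    intro hZB
    have e1 := ht1 l₁ hl1P hl1a Z hZB hZ1
    have e2 := ht2' l₂ hl2P hl2a Z hZB hZ2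
    exact ha (e1.symm.trans e2)
  have hm1 : a₁ ∈ (T L B Z).filter (· ∉ t) := by
    refine Finset.mem_filter.2 ⟨mem_T'.2 ⟨ha1B, ?_⟩, ha1t⟩
    intro l hl hal Y hY hYl
    have hne : Z ≠ a₁ := by
      rintro rfl
      exact hZB ha1B
    have h3 : l = l₁ := (Nondegenerate.eq_or_eq hl hal hZ1 hl1a).resolve_left hne
    subst h3
    exact ht1 l hl1P hl1a Y hY hYl
  have hm2 : a₂ ∈ (T L B Z).filter (· ∉ t) := by
    refine Finset.mem_filter.2 ⟨mem_T'.2 ⟨ha2B, ?_⟩, ha2t⟩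
    intro l hl hal Y hY hYl
    have hne : Z ≠ a₂ := by
      rintro rfl
      exact hZB ha2B
    have h3 : l = l₂ := (Nondegenerate.eq_or_eq hl hal hZ2 hl2a).resolve_left hne
    subst h3
    exact ht2' l hl2P hl2a Y hY hYl
  have h5 := T_off_le h hZt hZB
  have h6 : q - d = m := by omega
  obtain ⟨l', hl'⟩ := h.cb3 Z hZB t (by
    have h7 : ((T L B Z).filter fun X => X ∉ t).card + (on B t).card ≤ q + 1 := h5
    rw [h6]
    omega)
  have h7 := h.cb1 Z hZB t ⟨a₁, hm1⟩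
  rw [h6] at h7
  refine ⟨l', hl' a₁ (Finset.mem_filter.1 hm1).1 ha1t, hl' a₂ (Finset.mem_filter.1 hm2).1 ha2t, ?_⟩
  refine h7.trans (Finset.card_le_card ?_)
  intro X hX
  obtain ⟨hXT, hXt⟩ := Finset.mem_filter.1 hX
  exact Finset.mem_filter.2 ⟨Finset.mem_filter.2 ⟨(mem_T'.1 hXT).1, hXt⟩, hl' X hXT hXt⟩

end Pool.Agent.H25.PS
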